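import Mathlib

set_option autoImplicit false

namespace Pool.Agent.Results.MP_e032b8_co.KGeFive

open Finset

/-- The symmetric weight of a digit: `0` for the outermost pair of digits, `1` for the next pair,
`2` for all the others. -/
def phi (k t : ℕ) : ℕ := min (min t (k - 1 - t)) 2

def Phi {n k : ℕ} (x : Fin n → Fin k) : ℕ := ∑ i, phi k (x i)

lemma phi_le (k t : ℕ) : phi k t ≤ 2 := min_le_right _ _

lemma Phi_le {n k : ℕ} (x : Fin n → Fin k) : Phi x ≤ 2 * n := by
  unfold Phi
  calc ∑ i, phi k (x i) ≤ ∑ _i : Fin n, 2 := Finset.sum_le_sum fun i _ => phi_le _ _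
    _ = 2 * n := by simp [mul_comm]

lemma phi_refl {k t : ℕ} (ht : t ≤ k - 1) : phi k (k - 1 - t) = phi k t := by
  unfold phi
  have : k - 1 - (k - 1 - t) = t := by omega
  rw [this, min_comm t]

lemma key {n k : ℕ} (hk : 5 ≤ k) (T : Finset (Fin n → Fin k)) (hT : T.card = k)
    (hcol : Collinear ℝ ((fun (x : Fin n → Fin k) (i : Fin n) => (((x i : ℕ)) : ℝ)) ''
              (T : Set (Fin n → Fin k)))) :
    ∃ p0 ∈ T, ∃ p1 ∈ T, ∃ p2 ∈ T, ∃ w : ℕ, 1 ≤ w ∧ Phi p1 = Phi p0 + w ∧
      Phi p2 = Phi p0 + 2 * w := by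
  classical
  have hne : T.Nonempty := by
    rw [← Finset.card_pos]; omega
  obtain ⟨q, hq⟩ := hne
  have hqm : (fun i : Fin n => (((q i : ℕ)) : ℝ)) ∈
      ((fun (x : Fin n → Fin k) (i : Fin n) => (((x i : ℕ)) : ℝ)) ''
              (T : Set (Fin n → Fin k))) := ⟨q, by simpa using hq, rfl⟩
  rw [collinear_iff_of_mem hqm] at hcol
  obtain ⟨v, hv⟩ := hcol
  have hv' : ∀ x ∈ T, ∃ r : ℝ, ∀ i, ((x i : ℕ) : ℝ) = r * v i + ((q i : ℕ) : ℝ) := by
    intro x hx
    obtain ⟨r, hr⟩ := hv _ ⟨x, by simpa using hx, rfl⟩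
    refine ⟨r, fun i => ?_⟩
    have := congrFun hr i
    simpa using this
  choose! r hr using hv'
  -- a coordinate with nonzero direction
  have hvi : ∃ i, v i ≠ 0 := by
    by_contra hcon
    push Not at hcon
    have : T.card ≤ 1 := by
      rw [Finset.card_le_one]
      intro a ha b hb
      funext i
      have h1 := hr a ha i
      have h2 := hr b hb i
      rw [hcon i] at h1 h2
      apply Fin.ext
      have : ((a i : ℕ) : ℝ) = ((b i : ℕ) : ℝ) := by rw [h1, h2]; ring
      exact_mod_cast this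
    omega
  obtain ⟨i₀, hi₀⟩ := hvi
  have hinj : Set.InjOn (fun x : Fin n → Fin k => x i₀) (T : Set (Fin n → Fin k)) := by
    intro a ha b hb hab
    simp only at hab
    have ha' : a ∈ T := by simpa using ha
    have hb' : b ∈ T := by simpa using hb
    have h1 := hr a ha' i₀
    have h2 := hr b hb' i₀
    rw [hab] at h1
    have h3 : r a = r b := by
      have : r a * v i₀ = r b * v i₀ := by linarith
      exact mul_right_cancel₀ hi₀ this
    funext i
    apply Fin.ext
    have : ((a i : ℕ) : ℝ) = ((b i : ℕ) : ℝ) := by rw [hr a ha' i, hr b hb' i, h3]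
    exact_mod_cast this
  have hsurj : ∀ t : Fin k, ∃ x ∈ T, x i₀ = t := by
    have himg : T.image (fun x : Fin n → Fin k => x i₀) = Finset.univ := by
      apply Finset.eq_univ_of_card
      rw [Finset.card_image_of_injOn hinj, hT, Fintype.card_fin]
    intro t
    have : t ∈ T.image (fun x : Fin n → Fin k => x i₀) := by rw [himg]; exact Finset.mem_univ _
    simpa using this
  choose p hpT hp using hsurj
  -- affine parametrisation
  have haff : ∀ (t : Fin k) (j : Fin n), (((p t) j : ℕ) : ℝ) =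
      ((q j : ℕ) : ℝ) + (((t : ℕ) : ℝ) - ((q i₀ : ℕ) : ℝ)) / v i₀ * v j := by
    intro t j
    have h1 := hr (p t) (hpT t) i₀
    rw [hp t] at h1
    have h2 := hr (p t) (hpT t) j
    have h3 : r (p t) = (((t : ℕ) : ℝ) - ((q i₀ : ℕ) : ℝ)) / v i₀ := by
      field_simp
      linarith
    rw [h2, h3]; ring
  have h0k : 0 < k := by omega
  have h1k : 1 < k := by omega
  have h2k : 2 < k := by omega
  let t0 : Fin k := ⟨0, h0k⟩
  let t1 : Fin k := ⟨1, h1k⟩
  let t2 : Fin k := ⟨2, h2k⟩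
  let tl : Fin k := ⟨k - 1, by omega⟩
  have hbj : ∀ j : Fin n, ∀ t : Fin k, (((p t) j : ℕ) : ℝ) = ((p t0 j : ℕ) : ℝ) +
      ((t : ℕ) : ℝ) * (((p t1 j : ℕ) : ℝ) - ((p t0 j : ℕ) : ℝ)) := by
    intro j t
    rw [haff t j, haff t0 j, haff t1 j]
    simp only [t0, t1]
    push_cast
    ring
  have hbjZ : ∀ j : Fin n, ∀ t : Fin k, (((p t) j : ℕ) : ℤ) = ((p t0 j : ℕ) : ℤ) +
      ((t : ℕ) : ℤ) * (((p t1 j : ℕ) : ℤ) - ((p t0 j : ℕ) : ℤ)) := by
    intro j t
    have := hbj j t
    exact_mod_cast this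
  -- the three types of coordinates
  have htype : ∀ j : Fin n, (∀ t : Fin k, ((p t) j : ℕ) = (p t0 j : ℕ)) ∨
      (∀ t : Fin k, ((p t) j : ℕ) = (t : ℕ)) ∨ (∀ t : Fin k, ((p t) j : ℕ) = k - 1 - (t : ℕ)) := by
    intro j
    have hl := hbjZ j tl
    have hl2 : (((p tl) j : ℕ) : ℤ) ≤ (k : ℤ) - 1 := by
      have := (p tl j).isLt
      omega
    have hl3 : (0 : ℤ) ≤ (((p tl) j : ℕ) : ℤ) := by positivity
    have h03 : (((p t0) j : ℕ) : ℤ) ≤ (k : ℤ) - 1 := by
      have := (p t0 j).isLt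
      omega
    have h04 : (0 : ℤ) ≤ (((p t0) j : ℕ) : ℤ) := by positivity
    set b : ℤ := (((p t1 j : ℕ) : ℤ) - ((p t0 j : ℕ) : ℤ)) with hb
    have htl : ((tl : ℕ) : ℤ) = (k : ℤ) - 1 := by
      simp only [tl]
      omega
    rw [htl] at hl
    have hk1 : (4 : ℤ) ≤ (k : ℤ) - 1 := by omega
    have hb1 : b ≤ 1 := by
      by_contra hcon
      push Not at hcon
      nlinarith
    have hb2 : -1 ≤ b := by
      by_contra hcon
      push Not at hcon
      nlinarith
    have hb3 : b = 0 ∨ b = 1 ∨ b = -1 := by omega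
    rcases hb3 with h | h | h
    · left
      intro t
      have := hbjZ j t
      rw [← hb, h] at this
      simp only [mul_zero, add_zero] at this
      exact_mod_cast this
    · right; left
      rw [h] at hl
      have h0 : (((p t0) j : ℕ) : ℤ) = 0 := by omega
      intro t
      have := hbjZ j t
      rw [← hb, h, h0] at this
      simp only [mul_one, zero_add] at this
      exact_mod_cast this
    · right; right
      rw [h] at hl
      have h0 : (((p t0) j : ℕ) : ℤ) = (k : ℤ) - 1 := by omega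
      intro t
      have := hbjZ j t
      rw [← hb, h, h0] at this
      have ht := t.isLt
      omega
  -- weight of a coordinate of type nonconstant
  let C : Finset (Fin n) := Finset.univ.filter fun j => ∀ t : Fin k, ((p t) j : ℕ) = (p t0 j : ℕ)
  have hPhi : ∀ t : Fin k, Phi (p t) = (∑ j ∈ C, phi k (p t0 j)) + (Cᶜ).card * phi k t := by
    intro t
    unfold Phi
    rw [← Finset.sum_add_sum_compl C]
    congr 1
    · apply Finset.sum_congr rfl
      intro j hj
      simp only [C, Finset.mem_filter, Finset.mem_univ, true_and] at hj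
      rw [hj t]
    · have : ∀ j ∈ Cᶜ, phi k (p t j) = phi k t := by
        intro j hj
        simp only [C, Finset.mem_compl, Finset.mem_filter, Finset.mem_univ, true_and] at hj
        rcases htype j with h | h | h
        · exact absurd h hj
        · rw [h t]
        · rw [h t]
          apply phi_refl
          have := t.isLt
          omega
      rw [Finset.sum_congr rfl this]
      simp
  have hcard : 1 ≤ (Cᶜ).card := by
    rw [Nat.one_le_iff_ne_zero, ← Nat.pos_iff_ne_zero, Finset.card_pos]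
    refine ⟨i₀, ?_⟩
    simp only [C, Finset.mem_compl, Finset.mem_filter, Finset.mem_univ, true_and]
    intro hcon
    have := hcon t1
    rw [hp t1, hp t0] at this
    simp [t0, t1] at this
  refine ⟨p t0, hpT _, p t1, hpT _, p t2, hpT _, (Cᶜ).card, hcard, ?_, ?_⟩
  · rw [hPhi t1, hPhi t0]
    have h0 : phi k (t0 : ℕ) = 0 := by simp [phi, t0]
    have h1 : phi k (t1 : ℕ) = 1 := by simp only [phi, t1]; omega
    rw [h0, h1]; ring
  · rw [hPhi t2, hPhi t0]
    have h0 : phi k (t0 : ℕ) = 0 := by simp [phi, t0]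
    have h1 : phi k (t2 : ℕ) = 2 := by simp only [phi, t2]; omega
    rw [h0, h1]; ring

/-- Strong form: a line-free set of size `k^n · R(2n+1)/(4n+1)`. -/
lemma exists_set {k : ℕ} (hk : 5 ≤ k) (n : ℕ) :
    ∃ S : Finset (Fin n → Fin k),
      k ^ n * rothNumberNat (2 * n + 1) ≤ (4 * n + 1) * S.card ∧
      ∀ T : Finset (Fin n → Fin k), T ⊆ S → T.card = k →
          ¬ Collinear ℝ ((fun (x : Fin n → Fin k) (i : Fin n) => (((x i : ℕ)) : ℝ)) ''
              (T : Set (Fin n → Fin k))) := by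
  classical
  obtain ⟨R, hR, hRc, hfree⟩ := rothNumberNat_spec (2 * n + 1)
  let A : ℕ → Finset (Fin n → Fin k) := fun b =>
    Finset.univ.filter fun x => ∃ s ∈ R, Phi x + 2 * n = s + b
  have hsum : ∑ b ∈ Finset.range (4 * n + 1), (A b).card = k ^ n * R.card := by
    have h1 : ∀ b ∈ Finset.range (4 * n + 1), (A b).card =
        ∑ x : Fin n → Fin k, if (∃ s ∈ R, Phi x + 2 * n = s + b) then 1 else 0 := by
      intro b _
      simp only [A, Finset.card_filter]
    rw [Finset.sum_congr rfl h1, Finset.sum_comm]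
    have h2 : ∀ x ∈ (Finset.univ : Finset (Fin n → Fin k)),
        (∑ b ∈ Finset.range (4 * n + 1), if (∃ s ∈ R, Phi x + 2 * n = s + b) then 1 else 0)
          = R.card := by
      intro x _
      rw [← Finset.card_filter]
      symm
      apply Finset.card_bij (fun s _ => Phi x + 2 * n - s)
      · intro s hs
        have hs2 := Finset.mem_range.1 (hR hs)
        have hx := Phi_le x
        simp only [Finset.mem_filter, Finset.mem_range]
        refine ⟨by omega, s, hs, by omega⟩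
      · intro s hs s' hs' h
        have hs2 := Finset.mem_range.1 (hR hs)
        have hs3 := Finset.mem_range.1 (hR hs')
        omega
      · intro b hb
        simp only [Finset.mem_filter, Finset.mem_range] at hb
        obtain ⟨_, s, hs, h⟩ := hb
        refine ⟨s, hs, by omega⟩
    rw [Finset.sum_congr rfl h2]
    simp
  have hex : ∃ b ∈ Finset.range (4 * n + 1), k ^ n * R.card ≤ (4 * n + 1) * (A b).card := by
    by_contra hcon
    push Not at hcon
    have : ∑ b ∈ Finset.range (4 * n + 1), (4 * n + 1) * (A b).card <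
        ∑ _b ∈ Finset.range (4 * n + 1), k ^ n * R.card :=
      Finset.sum_lt_sum_of_nonempty ⟨0, by simp⟩ hcon
    rw [← Finset.mul_sum, hsum] at this
    simp at this
  obtain ⟨b, _, hb⟩ := hex
  refine ⟨A b, by rw [← hRc]; exact hb, ?_⟩
  intro T hTS hT hcol
  obtain ⟨p0, h0, p1, h1, p2, h2, w, hw, e1, e2⟩ := key hk T hT hcol
  have m0 := hTS h0
  have m1 := hTS h1
  have m2 := hTS h2
  simp only [A, Finset.mem_filter, Finset.mem_univ, true_and] at m0 m1 m2
  obtain ⟨s0, hs0, g0⟩ := m0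
  obtain ⟨s1, hs1, g1⟩ := m1
  obtain ⟨s2, hs2, g2⟩ := m2
  have := hfree (by simpa using hs0) (by simpa using hs1) (by simpa using hs2)
    (show s0 + s2 = s1 + s1 by omega)
  omega

/-- For every `k ≥ 5` the grid `{0,…,k-1}^n` contains a line-free set of size at least
`½ k^n exp(-4 √log(2n+1))`; in particular, for every `c > 0` and all large `n`, one of size at
least `c k^n / √n`. -/
theorem result :
    ∀ k : ℕ, 5 ≤ k →
      (∀ n : ℕ, ∃ S : Finset (Fin n → Fin k),
        (k : ℝ) ^ n * Real.exp (-4 * Real.sqrt (Real.log (2 * n + 1))) / 2 ≤ (S.card : ℝ) ∧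
        ∀ T : Finset (Fin n → Fin k), T ⊆ S → T.card = k →
          ¬ Collinear ℝ ((fun (x : Fin n → Fin k) (i : Fin n) => (((x i : ℕ)) : ℝ)) ''
              (T : Set (Fin n → Fin k)))) ∧
      (∀ c : ℝ, 0 < c → ∃ N : ℕ, ∀ n : ℕ, N ≤ n →
        ∃ S : Finset (Fin n → Fin k),
          c * (k : ℝ) ^ n / Real.sqrt (n : ℝ) ≤ (S.card : ℝ) ∧
          ∀ T : Finset (Fin n → Fin k), T ⊆ S → T.card = k →
            ¬ Collinear ℝ ((fun (x : Fin n → Fin k) (i : Fin n) => (((x i : ℕ)) : ℝ)) ''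
                (T : Set (Fin n → Fin k)))) := by
  intro k hk
  have main : ∀ n : ℕ, ∃ S : Finset (Fin n → Fin k),
        (k : ℝ) ^ n * Real.exp (-4 * Real.sqrt (Real.log (2 * n + 1))) / 2 ≤ (S.card : ℝ) ∧
        ∀ T : Finset (Fin n → Fin k), T ⊆ S → T.card = k →
          ¬ Collinear ℝ ((fun (x : Fin n → Fin k) (i : Fin n) => (((x i : ℕ)) : ℝ)) ''
              (T : Set (Fin n → Fin k))) := by
    intro n
    obtain ⟨S, hS, hfree⟩ := exists_set hk n
    refine ⟨S, ?_, hfree⟩
    have hB := Behrend.roth_lower_bound (N := 2 * n + 1)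
    push_cast at hB
    have hS' : (k : ℝ) ^ n * (rothNumberNat (2 * n + 1) : ℝ) ≤ (4 * n + 1) * (S.card : ℝ) := by
      exact_mod_cast hS
    set E := Real.exp (-4 * Real.sqrt (Real.log (2 * n + 1))) with hE
    have hEpos : 0 < E := Real.exp_pos _
    have hkn : (0 : ℝ) < (k : ℝ) ^ n := by positivity
    have h3 : (k : ℝ) ^ n * ((2 * n + 1) * E) ≤ (4 * n + 1) * (S.card : ℝ) :=
      le_trans (mul_le_mul_of_nonneg_left hB hkn.le) hS'
    have hn : (0 : ℝ) ≤ n := by positivity
    by_contra hcon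
    push Not at hcon
    have : (4 * n + 1) * (S.card : ℝ) < (4 * n + 1) * ((k : ℝ) ^ n * E / 2) :=
      mul_lt_mul_of_pos_left hcon (by positivity)
    have h4 : (k : ℝ) ^ n * ((2 * n + 1) * E) ≤ (4 * n + 1) * ((k : ℝ) ^ n * E / 2) := by linarith
    have h5 : 0 < (k : ℝ) ^ n * E := by positivity
    nlinarith
  refine ⟨main, ?_⟩
  intro c hc
  set Y : ℝ := max 10 (4 * c) with hY
  obtain ⟨N, hN⟩ := exists_nat_gt (Real.exp (Y ^ 2))
  refine ⟨N, ?_⟩
  intro n hn
  obtain ⟨S, hS, hfree⟩ := main n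
  refine ⟨S, le_trans ?_ hS, hfree⟩
  have hnpos : (0 : ℝ) < n := by
    have : (0 : ℝ) < N := lt_trans (Real.exp_pos _) hN
    have h2 : (N : ℝ) ≤ n := by exact_mod_cast hn
    linarith
  have hn1 : (1 : ℝ) ≤ n := by
    have : 0 < n := by exact_mod_cast hnpos
    exact_mod_cast this
  set y : ℝ := Real.sqrt (Real.log (2 * n + 1)) with hy
  have hlogY : Y ^ 2 ≤ Real.log (2 * n + 1) := by
    rw [Real.le_log_iff_exp_le (by positivity)]
    have h2 : (N : ℝ) ≤ n := by exact_mod_cast hn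
    linarith
  have hY0 : 0 ≤ Y := le_trans (by norm_num) (le_max_left _ _)
  have hyY : Y ≤ y := by
    rw [hy]
    apply Real.le_sqrt_of_sq_le hlogY
  have hy10 : 10 ≤ y := le_trans (le_max_left _ _) hyY
  have hyc : 4 * c ≤ y := le_trans (le_max_right _ _) hyY
  have hysq : y ^ 2 = Real.log (2 * n + 1) := by
    rw [hy, Real.sq_sqrt]
    exact le_trans (sq_nonneg Y) hlogY
  -- √n ≥ exp(y^2/2)/2
  have hsq : Real.exp (y ^ 2 / 2) / 2 ≤ Real.sqrt n := by
    apply Real.le_sqrt_of_sq_le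
    have h1 : Real.exp (y ^ 2 / 2) ^ 2 = 2 * n + 1 := by
      rw [← Real.exp_nat_mul]
      have : ((2 : ℕ) : ℝ) * (y ^ 2 / 2) = y ^ 2 := by push_cast; ring
      rw [this, hysq, Real.exp_log (by positivity)]
    rw [div_pow, h1]
    linarith
  have hkn : (0 : ℝ) < (k : ℝ) ^ n := by positivity
  have hsn : 0 < Real.sqrt n := Real.sqrt_pos.2 hnpos
  rw [div_le_iff₀ hsn]
  have h6 : c ≤ Real.exp (-4 * y) / 2 * Real.sqrt n := by
    have h7 : Real.exp (-4 * y) / 2 * (Real.exp (y ^ 2 / 2) / 2) ≤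
        Real.exp (-4 * y) / 2 * Real.sqrt n :=
      mul_le_mul_of_nonneg_left hsq (by positivity)
    refine le_trans ?_ h7
    have h8 : Real.exp (-4 * y) / 2 * (Real.exp (y ^ 2 / 2) / 2) =
        Real.exp (y ^ 2 / 2 - 4 * y) / 4 := by
      rw [show y ^ 2 / 2 - 4 * y = -4 * y + y ^ 2 / 2 by ring, Real.exp_add]
      ring
    rw [h8]
    have h9 : y ≤ y ^ 2 / 2 - 4 * y := by nlinarith
    have h10 : y + 1 ≤ Real.exp y := Real.add_one_le_exp y
    have h11 : Real.exp y ≤ Real.exp (y ^ 2 / 2 - 4 * y) := Real.exp_le_exp.2 h9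
    linarith
  calc c * (k : ℝ) ^ n ≤ (Real.exp (-4 * y) / 2 * Real.sqrt n) * (k : ℝ) ^ n :=
        mul_le_mul_of_nonneg_right h6 hkn.le
    _ = (k : ℝ) ^ n * Real.exp (-4 * y) / 2 * Real.sqrt n := by ring

end Pool.Agent.Results.MP_e032b8_co.KGeFive
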